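import Pool.Agent.H99.InfE

set_option autoImplicit false

open Set Pool.Agent.H99.InfH

namespace Pool.Agent.Results.MP_2231f7_an.Unique

theorem result (Ω : Set P) (hΩ : IsOpen Ω) (hb : Bornology.IsBounded Ω)
    (u₀ u v : P → UnitAddCircle) (hu : InfHarm Ω u₀ u) (hv : InfHarm Ω u₀ v) :
    ∀ x ∈ closure Ω, u x = v x :=
  uniq hΩ hb hu hv

end Pool.Agent.Results.MP_2231f7_an.Unique
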